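import Mathlib
import Pool.Agent.MP_a656b1_co.H49.Basic

set_option autoImplicit false

namespace Pool.Agent.Results.MP_a656b1_co.ExactValue

/-- For a product of chains `0..e i` with every `e i` positive and even, the largest size `g` of an
I,U-family satisfies `4 g + 1 + sum e i = prod (e i + 1)`. -/
theorem result (n : ℕ) (e : Fin n → ℕ) (_hpos : ∀ i, 0 < e i) (heven : ∀ i, Even (e i)) :
    ∃ g : ℕ,
      IsGreatest
        {m : ℕ | ∃ F : Finset (Fin n → ℕ), F.card = m ∧ (∀ a ∈ F, ∀ i, a i ≤ e i) ∧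
          ∀ a ∈ F, ∀ b ∈ F, (∃ i, e i < a i + b i) ∧ (∃ j, a j + b j < e j)} g ∧
      4 * g + 1 + ∑ i, e i = ∏ i, (e i + 1) := by
  choose h hh using heven
  have he : e = fun i => 2 * h i := by
    funext i
    rw [hh i]; ring
  subst he
  have hup := Pool.Agent.MP_a656b1_co.H49.upper h (Pool.Agent.MP_a656b1_co.H49.ext h)
    (Pool.Agent.MP_a656b1_co.H49.ext_le h) (Pool.Agent.MP_a656b1_co.H49.ext_IU h)
  have hlow := Pool.Agent.MP_a656b1_co.H49.lower h
  refine ⟨(Pool.Agent.MP_a656b1_co.H49.ext h).card, ⟨⟨_, rfl,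
    Pool.Agent.MP_a656b1_co.H49.ext_le h, Pool.Agent.MP_a656b1_co.H49.ext_IU h⟩, ?_⟩, ?_⟩
  · rintro m ⟨F, rfl, hF, hIU⟩
    have := Pool.Agent.MP_a656b1_co.H49.upper h F hF hIU
    omega
  · show 4 * _ + 1 + ∑ i, 2 * h i = ∏ i, (2 * h i + 1)
    omega

end Pool.Agent.Results.MP_a656b1_co.ExactValue
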